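import Pool.Agent.helper20.VVO.Spec

/-!
# Project vvo (MP_069684_lc), row HYB
-/

set_option autoImplicit false

open Filter Topology

namespace Pool.Agent.VVO

open Pool.Agent.PB Pool.Agent.ISO Pool.Agent.ISA

/-- the factor outside `i` -/
noncomputable def HYB_R {α : Type} {k : ℕ} (Dy Dn : α → ℝ) (S : Finset (Fin k)) (i : Fin k) (X : Fin k → α) : ℝ :=
  ∏ j ∈ Finset.univ.erase i, if j ∈ S then Dy (X j) else Dn (X j)

theorem HYB_R_update {α : Type} {k : ℕ} (Dy Dn : α → ℝ) (S : Finset (Fin k)) (i : Fin k) (X : Fin k → α) (x : α) :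
    HYB_R Dy Dn S i (Function.update X i x) = HYB_R Dy Dn S i X := by
  refine Finset.prod_congr rfl fun j hj => ?_
  rw [Function.update_of_ne (Finset.ne_of_mem_erase hj)]

theorem HYB_mem {α : Type} {k : ℕ} (Dy Dn : α → ℝ) (S : Finset (Fin k)) (i : Fin k) (hi : i ∈ S) (X : Fin k → α) :
    DS Dy Dn S X = HYB_R Dy Dn S i X * Dy (X i) := by
  unfold DS HYB_R
  rw [← Finset.prod_erase_mul Finset.univ _ (Finset.mem_univ i), if_pos hi]

theorem HYB_erase {α : Type} {k : ℕ} (Dy Dn : α → ℝ) (S : Finset (Fin k)) (i : Fin k) (X : Fin k → α) :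
    DS Dy Dn (S.erase i) X = HYB_R Dy Dn S i X * Dn (X i) := by
  unfold DS HYB_R
  rw [← Finset.prod_erase_mul Finset.univ _ (Finset.mem_univ i), if_neg (Finset.notMem_erase i S)]
  congr 1
  refine Finset.prod_congr rfl fun j hj => ?_
  have h : j ∈ S.erase i ↔ j ∈ S := by
    rw [Finset.mem_erase]
    exact ⟨fun h => h.2, fun h => ⟨Finset.ne_of_mem_erase hj, h⟩⟩
  simp only [h]

theorem HYB_avg {α : Type} [Fintype α] {k : ℕ} (Dy Dn D : α → ℝ) (S : Finset (Fin k)) (i : Fin k) (φ : (Fin k → α) → ℝ)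
    (h1 : ∑ x, Dy x = 1) :
    ∑ X, HYB_R Dy Dn S i X * D (X i) * φ X =
      ∑ X, HYB_R Dy Dn S i X * Dy (X i) * ∑ x, D x * φ (Function.update X i x) := by
  have hinv : Function.Involutive fun p : (Fin k → α) × α => (Function.update p.1 i p.2, p.1 i) := by
    rintro ⟨X, x⟩
    show (Function.update (Function.update X i x) i (X i), (Function.update X i x) i) = (X, x)
    rw [Function.update_idem, Function.update_eq_self, Function.update_self]
  calc ∑ X, HYB_R Dy Dn S i X * D (X i) * φ X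
      = ∑ X, ∑ x, Dy x * (HYB_R Dy Dn S i X * D (X i) * φ X) := by
        refine Finset.sum_congr rfl fun X _ => ?_
        rw [← Finset.sum_mul, h1, one_mul]
    _ = ∑ p : (Fin k → α) × α, Dy p.2 * (HYB_R Dy Dn S i p.1 * D (p.1 i) * φ p.1) := by
        rw [Fintype.sum_prod_type]
    _ = ∑ p : (Fin k → α) × α, HYB_R Dy Dn S i p.1 * Dy (p.1 i) * (D p.2 * φ (Function.update p.1 i p.2)) := by
        rw [← Equiv.sum_comp hinv.toPerm]
        refine Finset.sum_congr rfl fun p _ => ?_
        obtain ⟨X, x⟩ := p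
        show Dy (X i) * (HYB_R Dy Dn S i (Function.update X i x) * D ((Function.update X i x) i) * φ (Function.update X i x)) =
          HYB_R Dy Dn S i X * Dy (X i) * (D x * φ (Function.update X i x))
        rw [HYB_R_update, Function.update_self]
        ring
    _ = ∑ X, HYB_R Dy Dn S i X * Dy (X i) * ∑ x, D x * φ (Function.update X i x) := by
        rw [Fintype.sum_prod_type]
        refine Finset.sum_congr rfl fun X _ => ?_
        rw [Finset.mul_sum]

theorem HYB : HYB_stmt := by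
  intro α _ Dy Dn k S hDy hDy1 hDn hDn1
  have hnn : ∀ X, 0 ≤ DS Dy Dn S X := by
    intro X
    refine Finset.prod_nonneg fun i _ => ?_
    split_ifs
    · exact hDy _
    · exact hDn _
  have hsum : ∑ X, DS Dy Dn S X = 1 := by
    have h := Finset.prod_univ_sum (fun _ : Fin k => (Finset.univ : Finset α))
      (fun i x => if i ∈ S then Dy x else Dn x)
    rw [Fintype.piFinset_univ] at h
    unfold DS
    rw [← h]
    refine Finset.prod_eq_one fun i _ => ?_
    by_cases hi : i ∈ S
    · simp only [hi, if_true, hDy1]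
    · simp only [hi, if_false, hDn1]
  refine ⟨hnn, hsum, fun i φ η hi hφ => ?_⟩
  have e1 : ∑ X, DS Dy Dn (S.erase i) X * φ X =
      ∑ X, DS Dy Dn S X * ∑ x, Dn x * φ (Function.update X i x) := by
    simp only [HYB_mem Dy Dn S i hi, HYB_erase Dy Dn S i]
    exact HYB_avg Dy Dn Dn S i φ hDy1
  have e2 : ∑ X, DS Dy Dn S X * φ X = ∑ X, DS Dy Dn S X * ∑ x, Dy x * φ (Function.update X i x) := by
    simp only [HYB_mem Dy Dn S i hi]
    exact HYB_avg Dy Dn Dy S i φ hDy1
  rw [e1, e2]
  calc ∑ X, DS Dy Dn S X * ∑ x, Dn x * φ (Function.update X i x)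
      ≤ ∑ X, DS Dy Dn S X * (∑ x, Dy x * φ (Function.update X i x) + η) :=
        Finset.sum_le_sum fun X _ => mul_le_mul_of_nonneg_left (hφ X) (hnn X)
    _ = ∑ X, DS Dy Dn S X * ∑ x, Dy x * φ (Function.update X i x) + η := by
        simp only [mul_add, Finset.sum_add_distrib]
        rw [← Finset.sum_mul, hsum, one_mul]

end Pool.Agent.VVO
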